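import Pool.Agent.H77.TF.Stm3

/-! Project TC (helper77), module KR3 (helper91): the kernel of `v ↦ det(θ_0, θ_1, v)`. -/

set_option autoImplicit false
set_option linter.unusedSimpArgs false

open MvPolynomial Module

namespace Pool.Agent.H91.TF

open Pool.Agent.H77.TF

variable {K : Type} [Field K] [Fintype K]

/-- the expansion of the determinant -/
lemma D3_eq (v : Fin 3 → MvPolynomial (Fin 3) K) :
    D3 v = v 0 * (X 1 * X 2 ^ Fintype.card K - X 2 * X 1 ^ Fintype.card K) -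
      v 1 * (X 0 * X 2 ^ Fintype.card K - X 2 * X 0 ^ Fintype.card K) +
      v 2 * (X 0 * X 1 ^ Fintype.card K - X 1 * X 0 ^ Fintype.card K) := by
  unfold D3
  rw [Matrix.det_fin_three]
  simp only [Matrix.of_apply, Matrix.cons_val_zero, Matrix.cons_val_one, Matrix.cons_val, frob,
    pow_zero, pow_one]
  ring

lemma M01_ne_zero :
    (X 0 * X 1 ^ Fintype.card K - X 1 * X 0 ^ Fintype.card K : MvPolynomial (Fin 3) K) ≠ 0 := by
  intro h
  have h1 := congrArg (aeval ![(1 : Polynomial K), Polynomial.X, 0]) h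
  simp only [map_sub, map_mul, map_pow, aeval_X, Matrix.cons_val_zero, Matrix.cons_val_one,
    one_pow, mul_one, one_mul, map_zero] at h1
  exact FiniteField.X_pow_card_sub_X_ne_zero K (p := Fintype.card K) Fintype.one_lt_card h1

/-- KR3 -/
theorem kr3 (hGC3 : S_GC3) : S_KR3 := by
  intro K _ _ v hD
  rw [D3_eq] at hD
  have hM0 := M01_ne_zero (K := K)
  obtain ⟨M01, hM01⟩ : ∃ M : MvPolynomial (Fin 3) K,
    M = X 0 * X 1 ^ Fintype.card K - X 1 * X 0 ^ Fintype.card K := ⟨_, rfl⟩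
  obtain ⟨M02, hM02⟩ : ∃ M : MvPolynomial (Fin 3) K,
    M = X 0 * X 2 ^ Fintype.card K - X 2 * X 0 ^ Fintype.card K := ⟨_, rfl⟩
  obtain ⟨M12, hM12⟩ : ∃ M : MvPolynomial (Fin 3) K,
    M = X 1 * X 2 ^ Fintype.card K - X 2 * X 1 ^ Fintype.card K := ⟨_, rfl⟩
  have hgc := hGC3 K
  rw [← hM01, ← hM02, ← hM12] at hD hgc
  rw [← hM01] at hM0
  have hX : (X 0 : MvPolynomial (Fin 3) K) * M12 - X 1 * M02 + X 2 * M01 = 0 := by
    rw [hM01, hM02, hM12]
    ring
  have h1 : (X 0 * v 1 - X 1 * v 0) * M02 = (X 0 * v 2 - X 2 * v 0) * M01 := by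
    linear_combination (-X 0) * hD + v 0 * hX
  have h2 : (X 0 * v 1 - X 1 * v 0) * M12 = (X 1 * v 2 - X 2 * v 1) * M01 := by
    linear_combination (-X 1) * hD + v 1 * hX
  -- the quotient
  obtain ⟨r, n, g, hrel, hr, hn⟩ := UniqueFactorizationMonoid.exists_reduced_factors M01 hM0
    (X 0 * v 1 - X 1 * v 0)
  have hg0 : g ≠ 0 := by
    rintro rfl
    rw [zero_mul] at hr
    exact hM0 hr.symm
  have hr2 : r ∣ M02 := by
    refine hrel.dvd_of_dvd_mul_left ⟨X 0 * v 2 - X 2 * v 0, mul_left_cancel₀ hg0 ?_⟩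
    rw [← mul_assoc, hn, h1, ← hr]
    ring
  have hr3 : r ∣ M12 := by
    refine hrel.dvd_of_dvd_mul_left ⟨X 1 * v 2 - X 2 * v 1, mul_left_cancel₀ hg0 ?_⟩
    rw [← mul_assoc, hn, h2, ← hr]
    ring
  have hru : IsUnit r := hgc r ⟨g, by rw [← hr, mul_comm]⟩ hr2 hr3
  obtain ⟨γ, hγ⟩ : ∃ γ, X 0 * v 1 - X 1 * v 0 = γ * M01 := by
    obtain ⟨s, hs⟩ := hru.exists_left_inv
    refine ⟨s * n, ?_⟩
    rw [← hn, ← hr]
    linear_combination (-(g * n)) * hs
  have hγ2 : X 0 * v 2 - X 2 * v 0 = γ * M02 := by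
    apply mul_right_cancel₀ hM0
    rw [← h1, hγ]
    ring
  -- the multiple of the Euler field
  have hp : Prime (X 0 : MvPolynomial (Fin 3) K) := X_prime
  have h01 : ¬ (X 0 : MvPolynomial (Fin 3) K) ∣ X 1 := by
    rw [X_dvd_X]
    decide
  have hw1 : X 0 * (v 1 - γ * X 1 ^ Fintype.card K) = X 1 * (v 0 - γ * X 0 ^ Fintype.card K) := by
    rw [hM01] at hγ
    linear_combination hγ
  have hw2 : X 0 * (v 2 - γ * X 2 ^ Fintype.card K) = X 2 * (v 0 - γ * X 0 ^ Fintype.card K) := by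
    rw [hM02] at hγ2
    linear_combination hγ2
  obtain ⟨α, hα⟩ : X 0 ∣ v 0 - γ * X 0 ^ Fintype.card K := by
    have h3 : X 0 ∣ X 1 * (v 0 - γ * X 0 ^ Fintype.card K) := ⟨_, hw1.symm⟩
    exact (hp.dvd_or_dvd h3).resolve_left h01
  have hα1 : v 1 - γ * X 1 ^ Fintype.card K = X 1 * α := by
    apply mul_left_cancel₀ hp.ne_zero
    rw [hw1, hα]
    ring
  have hα2 : v 2 - γ * X 2 ^ Fintype.card K = X 2 * α := by
    apply mul_left_cancel₀ hp.ne_zero
    rw [hw2, hα]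
    ring
  have hv : v = α • frob K 3 0 + γ • frob K 3 1 := by
    funext i
    fin_cases i
    · simp only [Pi.add_apply, Pi.smul_apply, frob, smul_eq_mul, pow_zero, pow_one, Fin.zero_eta,
        Fin.mk_one, Fin.reduceFinMk]
      linear_combination hα
    · simp only [Pi.add_apply, Pi.smul_apply, frob, smul_eq_mul, pow_zero, pow_one, Fin.zero_eta,
        Fin.mk_one, Fin.reduceFinMk]
      linear_combination hα1
    · simp only [Pi.add_apply, Pi.smul_apply, frob, smul_eq_mul, pow_zero, pow_one, Fin.zero_eta,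
        Fin.mk_one, Fin.reduceFinMk]
      linear_combination hα2
  refine ⟨⟨α, γ, hv⟩, fun hom => ?_⟩
  have hN : (X 0 * v 1 - X 1 * v 0).IsHomogeneous (1 + Fintype.card K) :=
    ((isHomogeneous_X K 0).mul (hom 1)).sub ((isHomogeneous_X K 1).mul (hom 0))
  have hM : M01.IsHomogeneous (1 + Fintype.card K) := by
    rw [hM01]
    exact ((isHomogeneous_X K 0).mul (isHomogeneous_X_pow 1 _)).sub
      ((isHomogeneous_X K 1).mul (isHomogeneous_X_pow 0 _))
  obtain ⟨c, hc⟩ : ∃ c : K, γ = C c := by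
    by_cases hγ0 : γ = 0
    · exact ⟨0, by rw [hγ0, C_0]⟩
    · have h3 : X 0 * v 1 - X 1 * v 0 ≠ 0 := by
        rw [hγ]
        exact mul_ne_zero hγ0 hM0
      have h4 := hN.totalDegree h3
      rw [hγ, totalDegree_mul_of_isDomain hγ0 hM0, hM.totalDegree hM0] at h4
      exact ⟨_, totalDegree_eq_zero_iff_eq_C.1 (by omega)⟩
  exact ⟨α, c, by rw [hv, hc]⟩

end Pool.Agent.H91.TF
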