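import Pool.Agent.H77.TF.Stm2
import Pool.Agent.H75.TF.Suf

/-! Project TG (helper77), module PHI (helper91): the last element of the basis of a blocking
arrangement. -/

set_option autoImplicit false

open MvPolynomial Module

namespace Pool.Agent.H91.TF

open Pool.Agent.H77.TF Pool.Agent.H75.TF

/-- PHI -/
theorem phi (pri : S_PRI) (mdt : S_MDT) (stp : S_STP) : S_PHI := by
  classical
  intro K _ _ m ν _ A _ hA hB
  have hle : Fintype.card ν ≤ Nat.card (Projectivization K (Fin (m + 1) → K)) := by
    rw [← Nat.card_eq_fintype_card]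
    exact Nat.card_le_card_of_injective _ (pt_inj A hA)
  obtain ⟨φ, hφ, c, hc, hD⟩ := main_ind (K := K) (m := m) pri mdt stp
    (Nat.card (Projectivization K (Fin (m + 1) → K)) - Fintype.card ν) ν A hA hB (by omega)
  have hprod : (∏ i, lin (A i)).IsHomogeneous (Fintype.card ν) := by
    have h1 := IsHomogeneous.prod Finset.univ (fun i => lin (A i)) (fun _ => 1)
      (fun i _ => Pool.Agent.H75.TF.lin_hom (A i))
    simpa using h1
  have hhom : (D K m φ).IsHomogeneous (Fintype.card ν) := by
    rw [hD]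
    exact hprod.C_mul c
  have h0 : D K m φ ≠ 0 := by
    rw [hD]
    refine mul_ne_zero ?_ (Finset.prod_ne_zero_iff.2 fun i _ =>
      Pool.Agent.H75.TF.lin_ne_zero pri _ (hA.1 i))
    rw [Ne, C_eq_zero]
    exact hc
  obtain ⟨hsn, hDc⟩ := D_comp φ _ hhom h0
  refine ⟨hsn, cmp (Fintype.card ν - ∑ k ∈ Finset.range m, Fintype.card K ^ k) φ,
    cmp_mem A _ φ hφ, fun i => homogeneousComponent_isHomogeneous _ _, c, hc, ?_⟩
  rw [← hD, ← hDc]
  unfold D
  congr 1
  ext k i
  by_cases hk : (k : ℕ) = m
  · have h2 : k = Fin.last m := Fin.ext (by rw [Fin.val_last]; exact hk)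
    rw [h2, Matrix.updateRow_self, Matrix.of_apply, if_pos (Fin.val_last m)]
  · rw [Matrix.updateRow_ne (by
      intro h2
      rw [h2, Fin.val_last] at hk
      exact hk rfl), Matrix.of_apply, Matrix.of_apply, if_neg hk]

end Pool.Agent.H91.TF
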